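import Pool.Agent.H78.S.T8
import Pool.Agent.H12.BCP.GAL

/-! Board sgt, row MCA (helper79). -/

set_option autoImplicit false

open Set Module Polynomial

namespace Pool.Agent.H79.SGT

/-- the property of all finite extensions -/
def Hyp (K : Type) [Field K] : Prop := ∀ (L : Type) [Field L] [Algebra K L] [FiniteDimensional K L],
    (∀ q : ℕ, 0 < q → ∀ x : L, ∃ y : L, y ^ q = x) ∧
      ∀ p : ℕ, p.Prime → CharP L p → ∀ x : L, ∃ y : L, y ^ p - y = x

lemma Hyp.ext {K : Type} [Field K] (h : Hyp K) (F : Type) [Field F] [Algebra K F]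
    [FiniteDimensional K F] : Hyp F := by
  intro L _ _ _
  let i : Algebra K L := ((algebraMap F L).comp (algebraMap K F)).toAlgebra
  have t : IsScalarTower K F L := IsScalarTower.of_algebraMap_eq (fun _ => rfl)
  have : FiniteDimensional K L := FiniteDimensional.trans K F L
  exact h L

lemma Hyp.perfect {K : Type} [Field K] (h : Hyp K) : PerfectField K := by
  obtain ⟨p, hp⟩ := CharP.exists K
  rcases CharP.char_is_prime_or_zero K p with hp1 | rfl
  · have : Fact p.Prime := ⟨hp1⟩
    have : ExpChar K p := ExpChar.prime hp1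
    have hPR : PerfectRing K p := PerfectRing.ofSurjective K p (fun x => by
      obtain ⟨y, hy⟩ := (h K).1 p hp1.pos x
      exact ⟨y, by rw [frobenius_def]; exact hy⟩)
    exact PerfectRing.toPerfectField K p
  · have : CharZero K := CharP.charP_to_charZero K
    infer_instance

/-- an element of prime order gives a Galois extension of prime degree -/
lemma step {F N : Type} [Field F] [Field N] [Algebra F N] [FiniteDimensional F N] [IsGalois F N]
    (r : ℕ) (hr : r.Prime) (hd : r ∣ finrank F N) :
    ∃ L : IntermediateField F N, finrank L N = r := by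
  have : Fact r.Prime := ⟨hr⟩
  rw [← IsGalois.card_aut_eq_finrank] at hd
  obtain ⟨σ, hσ⟩ := exists_prime_orderOf_dvd_card' r hd
  refine ⟨IntermediateField.fixedField (Subgroup.zpowers σ), ?_⟩
  rw [IntermediateField.finrank_fixedField_eq_card, Nat.card_zpowers, hσ]

lemma cyc_card (F : Type) [Field F] (q : ℕ) (hq : q.Prime) (h0 : (q : F) ≠ 0) :
    finrank F (CyclotomicField q F) ∣ q - 1 := by
  have : NeZero (q : F) := ⟨h0⟩
  have : NeZero q := ⟨hq.ne_zero⟩
  have : IsGalois F (CyclotomicField q F) := IsCyclotomicExtension.isGalois {q} F _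
  have : FiniteDimensional F (CyclotomicField q F) := IsCyclotomicExtension.finiteDimensional {q} F _
  have hz := IsCyclotomicExtension.zeta_spec q F (CyclotomicField q F)
  rw [← IsGalois.card_aut_eq_finrank]
  have h1 := Subgroup.card_dvd_of_injective (hz.autToPow F)
    (IsPrimitiveRoot.autToPow_injective (K := F) hz)
  rwa [Nat.card_eq_fintype_card (α := (ZMod q)ˣ), ZMod.card_units_eq_totient,
    Nat.totient_prime hq] at h1

lemma main (q : ℕ) : q.Prime → ∀ (F : Type) [Field F], Hyp F →
    ∀ (N : Type) [Field N] [Algebra F N] [FiniteDimensional F N] [IsGalois F N],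
      finrank F N ≠ q := by
  induction q using Nat.strong_induction_on with
  | _ q ih =>
  intro hq F _ hF N _ _ _ _ hfin
  have hqF : Fact q.Prime := ⟨hq⟩
  have hq0 : NeZero q := ⟨hq.ne_zero⟩
  by_cases hch : (q : F) = 0
  · have hcF : CharP F q := by
      obtain ⟨p, hp⟩ := CharP.exists F
      have h1 := (CharP.cast_eq_zero_iff F p q).1 hch
      rcases (Nat.dvd_prime hq).1 h1 with h2 | h2
      · exact absurd h2 (CharP.char_ne_one F p)
      · rwa [h2] at hp
    have hcN : CharP N q := charP_of_injective_algebraMap (algebraMap F N).injective q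
    have hcard : Nat.card (N ≃ₐ[F] N) = q := by rw [IsGalois.card_aut_eq_finrank, hfin]
    obtain ⟨σ, hσ⟩ := exists_prime_orderOf_dvd_card' (G := N ≃ₐ[F] N) q (by rw [hcard])
    have hall : ∀ τ : N ≃ₐ[F] N, τ ∈ Subgroup.zpowers σ := by
      intro τ
      have h1 : Subgroup.zpowers σ = ⊤ := by
        have : Finite (N ≃ₐ[F] N) := Nat.finite_of_card_ne_zero (by rw [hcard]; exact hq.ne_zero)
        apply Subgroup.eq_top_of_card_eq
        rw [Nat.card_zpowers, hσ, hcard]
      rw [h1]
      trivial
    have hfix : ∀ x, (σ.toRingEquiv : N ≃+* N) x = x ↔ x ∈ (algebraMap F N).fieldRange := by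
      intro x
      constructor
      · intro hx
        have h1 : x ∈ (⊥ : IntermediateField F N) := by
          rw [IsGalois.mem_bot_iff_fixed]
          intro τ
          obtain ⟨n, rfl⟩ := hall τ
          have h2 : σ ∈ MulAction.stabilizer (N ≃ₐ[F] N) x := hx
          exact (MulAction.stabilizer (N ≃ₐ[F] N) x).zpow_mem h2 n
        exact IntermediateField.mem_bot.1 h1
      · rintro ⟨y, rfl⟩
        exact σ.commutes y
    have hσq : ∀ x, (⇑(σ.toRingEquiv : N ≃+* N))^[q] x = x := by
      intro x
      have h1 : σ ^ q = 1 := by rw [← hσ]; exact pow_orderOf_eq_one σ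
      have h2 : ∀ (n : ℕ) (x : N), (σ ^ n) x = (⇑(σ.toRingEquiv : N ≃+* N))^[n] x := by
        intro n
        induction n with
        | zero => intro x; rfl
        | succ n ih =>
          intro x
          rw [pow_succ, Function.iterate_succ_apply, ← ih]
          rfl
      rw [← h2, h1]
      rfl
    have hσ1 : ∃ x, (σ.toRingEquiv : N ≃+* N) x ≠ x := by
      by_contra hcon
      push Not at hcon
      have h1 : σ = 1 := AlgEquiv.ext hcon
      rw [h1, orderOf_one] at hσ
      exact hq.one_lt.ne hσ
    refine Pool.Agent.H12.BCP.gal_char (σ.toRingEquiv : N ≃+* N) (algebraMap F N).fieldRange q hσq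
      hσ1 hfix ?_
    rintro _ ⟨x, rfl⟩
    obtain ⟨y, hy⟩ := (hF F).2 q hq hcF x
    exact ⟨algebraMap F N y, ⟨y, rfl⟩, by rw [← hy, map_sub, map_pow]⟩
  · have hnz : NeZero (q : F) := ⟨hch⟩
    have hgalC : IsGalois F (CyclotomicField q F) := IsCyclotomicExtension.isGalois {q} F _
    have hfinC : FiniteDimensional F (CyclotomicField q F) :=
      IsCyclotomicExtension.finiteDimensional {q} F _
    have hC1 : finrank F (CyclotomicField q F) = 1 := by
      by_contra hne
      obtain ⟨r, hr, hrd⟩ := Nat.exists_prime_and_dvd hne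
      have hr2 : r ≤ q - 1 := Nat.le_of_dvd (by have := hq.two_le; omega)
        (hrd.trans (cyc_card F q hq hch))
      obtain ⟨L, hL⟩ := step r hr hrd
      exact ih r (by have := hq.two_le; omega) hr L (hF.ext L) (CyclotomicField q F) hL
    obtain ⟨z, hz⟩ : ∃ z : F, IsPrimitiveRoot z q := by
      have h1 : (⊥ : Subalgebra F (CyclotomicField q F)) = ⊤ :=
        Subalgebra.bot_eq_top_iff_finrank_eq_one.2 hC1
      have hz := IsCyclotomicExtension.zeta_spec q F (CyclotomicField q F)
      have h2 : IsCyclotomicExtension.zeta q F (CyclotomicField q F) ∈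
          (⊥ : Subalgebra F (CyclotomicField q F)) := by
        rw [h1]
        trivial
      obtain ⟨z, hz2⟩ := Algebra.mem_bot.1 h2
      refine ⟨z, ?_⟩
      rw [← hz2] at hz
      exact IsPrimitiveRoot.of_map_of_injective (f := algebraMap F (CyclotomicField q F)) hz
        (FaithfulSMul.algebraMap_injective _ _)
    have hprim : (primitiveRoots (finrank F N) F).Nonempty := by
      rw [hfin]
      exact ⟨z, (mem_primitiveRoots hq.pos).2 hz⟩
    have hcyc : IsCyclic (N ≃ₐ[F] N) := by
      refine isCyclic_of_prime_card (p := q) ?_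
      rw [IsGalois.card_aut_eq_finrank, hfin]
    obtain ⟨α, ⟨β, hβ⟩, hα⟩ := exists_root_adjoin_eq_top_of_isCyclic F N hprim
    rw [hfin] at hβ
    obtain ⟨b, hbq⟩ := (hF F).1 q hq.pos β
    have hαF : α ∈ (algebraMap F N).range := by
      by_cases hα0 : α = 0
      · rw [hα0]
        exact zero_mem _
      have hb0 : algebraMap F N b ≠ 0 := by
        intro h
        have hb : b = 0 := (map_eq_zero _).1 h
        rw [hb, zero_pow hq.ne_zero] at hbq
        rw [← hbq, map_zero] at hβ
        exact hα0 (pow_eq_zero_iff hq.ne_zero |>.1 hβ.symm)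
      have h1 : (α / algebraMap F N b) ^ q = 1 := by
        rw [div_pow, ← map_pow, hbq, ← hβ, div_self]
        rw [hβ]
        exact pow_ne_zero _ hα0
      have hz' : IsPrimitiveRoot (algebraMap F N z) q :=
        hz.map_of_injective (FaithfulSMul.algebraMap_injective _ _)
      obtain ⟨i, -, hi⟩ := hz'.eq_pow_of_pow_eq_one h1
      have h2 : α = algebraMap F N (z ^ i * b) := by
        rw [map_mul, map_pow, hi, div_mul_cancel₀ _ hb0]
      exact ⟨_, h2.symm⟩
    have htop : (⊥ : IntermediateField F N) = ⊤ := by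
      rw [← hα, eq_comm, IntermediateField.adjoin_simple_eq_bot_iff]
      exact IntermediateField.mem_bot.2 hαF
    have h1 : finrank F N = 1 := IntermediateField.bot_eq_top_iff_finrank_eq_one.1 htop
    rw [hfin] at h1
    exact hq.one_lt.ne' h1

theorem pf_MCA : Pool.Agent.H78.S.T_MCA := by
  intro K _ hK
  have hK' : Hyp K := hK
  have hP : PerfectField K := hK'.perfect
  refine IsAlgClosed.of_exists_root K (fun p hpm hpi => ?_)
  by_contra hno
  have hsep : p.Separable := PerfectField.separable_of_irreducible hpi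
  have hgal : IsGalois K p.SplittingField := IsGalois.of_separable_splitting_field hsep
  have hne : finrank K p.SplittingField ≠ 1 := by
    intro h1
    have h2 : (⊥ : Subalgebra K p.SplittingField) = ⊤ :=
      Subalgebra.bot_eq_top_iff_finrank_eq_one.2 h1
    have hsp := SplittingField.splits p
    have hdeg : p.degree ≠ 0 := fun h => by
      have := degree_pos_of_irreducible hpi
      rw [h] at this
      exact lt_irrefl _ this
    obtain ⟨x, hx⟩ := hsp.exists_eval_eq_zero (by rwa [degree_map])
    have h3 : x ∈ (⊥ : Subalgebra K p.SplittingField) := by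
      rw [h2]
      trivial
    obtain ⟨y, rfl⟩ := Algebra.mem_bot.1 h3
    apply hno
    refine ⟨y, ?_⟩
    rw [eval_map_algebraMap, aeval_algebraMap_apply] at hx
    exact (map_eq_zero _).1 hx
  obtain ⟨r, hr, hrd⟩ := Nat.exists_prime_and_dvd hne
  obtain ⟨L, hL⟩ := step r hr hrd
  exact main r hr L (hK'.ext L) _ hL

end Pool.Agent.H79.SGT
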